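import Pool.Agent.L0h86.E3.Dens
import Pool.Agent.L0h75.E3.TR8
import Pool.Agent.L0h74.E3.Fin

/-!
# The density for the class `y² = x³ - 8 m³`, unconditional
-/

set_option autoImplicit false

open scoped Classical
open Filter Topology

namespace Pool.Agent.L0h86.E3

open Pool.Agent.L0h4.T4 (AdmC)

/-- **the density in a class modulo four** -/
theorem t_densC_a {a : ℕ} (ha : a = 1 ∨ a = 3) {R : ℕ → Prop}
    (hR : ∀ m : ℕ, 1 < m → AdmC m → (R m ↔ (Pool.Agent.L0h4.T5.mC (2 * m)).det ≠ 0)) :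
    Tendsto (fun X : ℕ =>
      (((Finset.Icc 1 X).filter fun m => (1 < m ∧ AdmC m ∧ m % 4 = a) ∧ R m).card : ℝ) /
      (((Finset.Icc 1 X).filter fun m => 1 < m ∧ AdmC m ∧ m % 4 = a).card : ℝ))
    atTop (𝓝 ((∏' i : ℕ, (1 - (1 / 2 : ℝ) ^ (2 * i + 1))) / 2)) :=
  densC_a Pool.Agent.L0h75.E3.t_TR8 Pool.Agent.L0h74.E3.t_DENE ha hR

/-- **the density** -/
theorem t_densC {R : ℕ → Prop}
    (hR : ∀ m : ℕ, 1 < m → AdmC m → (R m ↔ (Pool.Agent.L0h4.T5.mC (2 * m)).det ≠ 0)) :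
    Tendsto (fun X : ℕ => (((Finset.Icc 1 X).filter fun m => (1 < m ∧ AdmC m) ∧ R m).card : ℝ) /
      (((Finset.Icc 1 X).filter fun m => 1 < m ∧ AdmC m).card : ℝ))
    atTop (𝓝 ((∏' i : ℕ, (1 - (1 / 2 : ℝ) ^ (2 * i + 1))) / 2)) :=
  densC Pool.Agent.L0h75.E3.t_TR8 Pool.Agent.L0h74.E3.t_DENE hR

end Pool.Agent.L0h86.E3
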