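import Pool.Agent.L0h86.E3.Glue
import Pool.Agent.L0h86.F5.Cor

/-!
# The density for the class `y² = x³ - 8 m³`
-/

set_option autoImplicit false
set_option linter.unusedSectionVars false

open scoped Classical
open Filter Topology

namespace Pool.Agent.L0h86.E3

open Pool.Agent.W192.HK Pool.Agent.Y696 Pool.Agent.Y715.T.Lat
open Pool.Agent.L0h86.F3
open Pool.Agent.L0h86.F5 (tm Cr8 admC_q admC_p admC_union admC_prod)
open Pool.Agent.L0h4.T4 (AdmC)
open Pool.Agent.L0h86.F1 (M1 M2)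
open Pool.Agent.Y698.SG (lg)
open Pool.Agent.N973.ND (uu)
open Pool.Agent.L0h74.E3 (n2 GdE S_DENE)
open Pool.Agent.L0h86.T3 (recA exists_gens)

lemma cg {p q : ℕ → Prop} {ip : DecidablePred p} {iq : DecidablePred q} (h : ∀ n, p n ↔ q n)
    (X : ℕ) : (@Finset.filter ℕ p ip (Finset.Icc 1 X)).card =
      (@Finset.filter ℕ q iq (Finset.Icc 1 X)).card := by
  refine congrArg Finset.card (Finset.ext fun m => ?_)
  rw [Finset.mem_filter, Finset.mem_filter, h m]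

/-- the counting function of an infinite set tends to infinity -/
theorem many_of_inf {P : ℕ → Prop} (h : {n | P n}.Infinite) :
    Tendsto (fun X : ℕ => (((Finset.Icc 1 X).filter P).card : ℝ)) atTop atTop := by
  have hm : Monotone fun X : ℕ => ((Finset.Icc 1 X).filter P).card := by
    intro X Y hXY
    refine Finset.card_le_card fun n hn => ?_
    rw [Finset.mem_filter, Finset.mem_Icc] at hn ⊢
    exact ⟨⟨hn.1.1, hn.1.2.trans hXY⟩, hn.2⟩
  refine tendsto_natCast_atTop_atTop.comp (tendsto_atTop_atTop_of_monotone hm fun b => ?_)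
  have h' : {n | P n ∧ 1 ≤ n}.Infinite := by
    refine (h.sdiff (Set.finite_singleton 0)).mono ?_
    rintro n ⟨h1, h2⟩
    exact ⟨h1, Nat.one_le_iff_ne_zero.2 h2⟩
  obtain ⟨t, ht, hc⟩ := h'.exists_subset_card_eq b
  refine ⟨t.sup id, ?_⟩
  rw [← hc]
  refine Finset.card_le_card fun n hn => ?_
  have := ht hn
  rw [Finset.mem_filter, Finset.mem_Icc]
  exact ⟨⟨this.2, Finset.le_sup (f := id) hn⟩, this.1⟩

/-- the mean of two sequences of quotients with the same limit -/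
theorem mean {a b c d : ℕ → ℝ} {l : ℝ} (h1 : Tendsto (fun n => a n / b n) atTop (𝓝 l))
    (h2 : Tendsto (fun n => c n / d n) atTop (𝓝 l)) (hb : ∀ᶠ n in atTop, 0 < b n)
    (hd : ∀ᶠ n in atTop, 0 < d n) :
    Tendsto (fun n => (a n + c n) / (b n + d n)) atTop (𝓝 l) := by
  rw [Metric.tendsto_atTop] at h1 h2 ⊢
  intro ε hε
  obtain ⟨N1, hN1⟩ := h1 (ε / 2) (by linarith)
  obtain ⟨N2, hN2⟩ := h2 (ε / 2) (by linarith)
  obtain ⟨N3, hN3⟩ := (eventually_atTop.1 hb)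
  obtain ⟨N4, hN4⟩ := (eventually_atTop.1 hd)
  refine ⟨max (max N1 N2) (max N3 N4), fun n hn => ?_⟩
  have k1 := hN1 n ((le_max_left _ _).trans ((le_max_left _ _).trans hn))
  have k2 := hN2 n ((le_max_right _ _).trans ((le_max_left _ _).trans hn))
  have k3 := hN3 n ((le_max_left _ _).trans ((le_max_right _ _).trans hn))
  have k4 := hN4 n ((le_max_right _ _).trans ((le_max_right _ _).trans hn))
  rw [Real.dist_eq, abs_lt] at k1 k2
  have e1 : (a n / b n) * b n = a n := div_mul_cancel₀ _ k3.ne'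
  have e2 : (c n / d n) * d n = c n := div_mul_cancel₀ _ k4.ne'
  have p1 : -(ε / 2) * b n < a n - l * b n := by nlinarith [k1.1]
  have p2 : a n - l * b n < ε / 2 * b n := by nlinarith [k1.2]
  have p3 : -(ε / 2) * d n < c n - l * d n := by nlinarith [k2.1]
  have p4 : c n - l * d n < ε / 2 * d n := by nlinarith [k2.2]
  have hs : 0 < b n + d n := by linarith
  have hx : (a n + c n) / (b n + d n) - l = ((a n - l * b n) + (c n - l * d n)) / (b n + d n) := by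
    field_simp
    ring
  rw [Real.dist_eq, hx, abs_div, abs_of_pos hs, div_lt_iff₀ hs, abs_lt]
  constructor <;> nlinarith

lemma inf_a {a : ℕ} (ha : a = 1 ∨ a = 3) :
    {n : ℕ | Squarefree n ∧ n % 4 = a ∧ ¬ 3 ∣ n}.Infinite := by
  have hu : IsUnit ((a : ℕ) : ZMod 4) := by
    rw [ZMod.isUnit_iff_coprime]
    rcases ha with rfl | rfl <;> decide
  refine ((Nat.infinite_setOfPred_prime_and_eq_mod hu).sdiff (Set.finite_singleton 3)).mono ?_
  rintro p ⟨⟨h1, h2⟩, h3⟩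
  refine ⟨h1.squarefree, ?_, fun h => h3 ((Nat.prime_dvd_prime_iff_eq Nat.prime_three h1).1 h).symm⟩
  have h4 := (ZMod.natCast_eq_natCast_iff' p a 4).1 h2
  rcases ha with rfl | rfl <;> omega

/-- the criterion for the admissible `m` -/
theorem tr_m (hT : S_TR8) {ϖ : ℕ → eis} (hϖ : ∀ p, SpQ p → N1 (ϖ p) ∧ ϖ p * cj (ϖ p) = (p : eis))
    {m : ℕ} (h : AdmC m) : (Pool.Agent.L0h4.T5.mC (2 * m)).det ≠ 0 ↔
      GdE ⟨if m % 4 = 1 then 0 else 1, fun p k => lg (sy (ϖ p) (ϖ k)) + uu p * uu k +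
      uu p * (bt (ϖ k)).re, fun p => (bt (ϖ p)).re⟩ m.primeFactors := by
  have hd : Dt (M2 m) (M1 m) ϖ := ⟨admC_q h, admC_p h, fun p hp => (hϖ p (admC_p h p hp)).1,
    fun p hp => (hϖ p (admC_p h p hp)).2⟩
  rw [← Pool.Agent.L0h4.T5.cr8_iff hd (admC_prod h), tr_C hT hd (admC_prod h), admC_union h]

/-- **the density in a class modulo four** -/
theorem densC_a (hT : S_TR8) (hD : S_DENE) {a : ℕ} (ha : a = 1 ∨ a = 3) {R : ℕ → Prop}
    (hR : ∀ m : ℕ, 1 < m → AdmC m → (R m ↔ (Pool.Agent.L0h4.T5.mC (2 * m)).det ≠ 0)) :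
    Tendsto (fun X : ℕ =>
      (((Finset.Icc 1 X).filter fun m => (1 < m ∧ AdmC m ∧ m % 4 = a) ∧ R m).card : ℝ) /
      (((Finset.Icc 1 X).filter fun m => 1 < m ∧ AdmC m ∧ m % 4 = a).card : ℝ))
    atTop (𝓝 ((∏' i : ℕ, (1 - (1 / 2 : ℝ) ^ (2 * i + 1))) / 2)) := by
  obtain ⟨ϖ, hϖ⟩ := exists_gens
  obtain ⟨d, hd⟩ : ∃ d : Pool.Agent.L0h74.E3.Dt, d = ⟨if a = 1 then 0 else 1,
    fun p k => lg (sy (ϖ p) (ϖ k)) + uu p * uu k + uu p * (bt (ϖ k)).re,
    fun p => (bt (ϖ p)).re⟩ := ⟨_, rfl⟩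
  have h := hD d 4 a (by rw [hd]; exact recA hϖ) (dvd_refl 4) (by norm_num)
    (by rcases ha with rfl | rfl <;> norm_num) (by rcases ha with rfl | rfl <;> decide) (by
      rw [hd]
      rcases ha with rfl | rfl
      · exact Or.inl ⟨rfl, rfl⟩
      · exact Or.inr ⟨rfl, rfl⟩)
  unfold Pool.Agent.Y703.CQ.c2 at h
  have hA : ∀ m : ℕ, (AdmC m ∧ m % 4 = a) ↔ (Squarefree m ∧ m % 4 = a ∧ ¬ 3 ∣ m) := by
    intro m
    constructor
    · rintro ⟨h1, h2⟩
      exact ⟨h1.sf, h2, h1.n3⟩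
    · rintro ⟨h1, h2, h3⟩
      exact ⟨⟨h1, by rcases ha with rfl | rfl <;> omega, h3⟩, h2⟩
  have hG : ∀ m : ℕ, AdmC m → m % 4 = a →
      (GdE d m.primeFactors ↔ (Pool.Agent.L0h4.T5.mC (2 * m)).det ≠ 0) := by
    intro m h1 h2
    rw [tr_m hT hϖ h1, hd, h2]
  refine (dens_del (P := fun m => AdmC m ∧ m % 4 = a)
    (Q := fun m => (Pool.Agent.L0h4.T5.mC (2 * m)).det ≠ 0) ?_ ?_).congr fun X =>
      congrArg₂ (fun a b : ℕ => (a : ℝ) / (b : ℝ)) ?_ ?_
  · refine h.congr fun X => congrArg₂ (fun a b : ℕ => (a : ℝ) / (b : ℝ)) (cg (fun m => ?_) X)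
      (cg (fun m => (hA m).symm) X)
    constructor
    · rintro ⟨h1, h2, h3, h4⟩
      have h5 := (hA m).2 ⟨h1, h2, h3⟩
      exact ⟨h5, (hG m h5.1 h5.2).1 h4⟩
    · rintro ⟨h1, h4⟩
      have h5 := (hA m).1 h1
      exact ⟨h5.1, h5.2.1, h5.2.2, (hG m h1.1 h1.2).2 h4⟩
  · refine many_of_inf ?_
    convert inf_a ha using 1
    exact Set.ext hA
  · exact cg (fun m => and_congr_right fun h1 => (hR m h1.1 h1.2.1).symm) X
  · exact cg (fun m => Iff.rfl) X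

lemma pos_a {a : ℕ} (ha : a = 1 ∨ a = 3) : ∀ᶠ X : ℕ in atTop,
    (0 : ℝ) < (((Finset.Icc 1 X).filter fun m => 1 < m ∧ AdmC m ∧ m % 4 = a).card : ℝ) := by
  have h : {m : ℕ | 1 < m ∧ AdmC m ∧ m % 4 = a}.Infinite := by
    refine ((inf_a ha).sdiff (Set.toFinite {0, 1})).mono ?_
    rintro m ⟨⟨h1, h2, h3⟩, h4⟩
    simp only [Set.mem_insert_iff, Set.mem_singleton_iff, not_or] at h4
    exact ⟨by omega, ⟨h1, by rcases ha with rfl | rfl <;> omega, h3⟩, h2⟩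
  refine ((many_of_inf h).eventually_gt_atTop 0).mono fun X hX => lt_of_lt_of_eq hX ?_
  exact congrArg Nat.cast (cg (fun m => Iff.rfl) X)

/-- **the density** -/
theorem densC (hT : S_TR8) (hD : S_DENE) {R : ℕ → Prop}
    (hR : ∀ m : ℕ, 1 < m → AdmC m → (R m ↔ (Pool.Agent.L0h4.T5.mC (2 * m)).det ≠ 0)) :
    Tendsto (fun X : ℕ => (((Finset.Icc 1 X).filter fun m => (1 < m ∧ AdmC m) ∧ R m).card : ℝ) /
      (((Finset.Icc 1 X).filter fun m => 1 < m ∧ AdmC m).card : ℝ))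
    atTop (𝓝 ((∏' i : ℕ, (1 - (1 / 2 : ℝ) ^ (2 * i + 1))) / 2)) := by
  have key := mean (densC_a hT hD (Or.inl rfl) hR) (densC_a hT hD (Or.inr rfl) hR)
    (pos_a (Or.inl rfl)) (pos_a (Or.inr rfl))
  have hc : ∀ (U : ℕ → Prop) (X : ℕ),
      (((Finset.Icc 1 X).filter fun m => (1 < m ∧ AdmC m ∧ m % 4 = 1) ∧ U m).card : ℝ) +
      (((Finset.Icc 1 X).filter fun m => (1 < m ∧ AdmC m ∧ m % 4 = 3) ∧ U m).card : ℝ) =
      (((Finset.Icc 1 X).filter fun m => (1 < m ∧ AdmC m) ∧ U m).card : ℝ) := by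
    intro U X
    rw [← Nat.cast_add, ← Finset.card_union_of_disjoint]
    · congr 2
      ext m
      rw [Finset.mem_union, Finset.mem_filter, Finset.mem_filter, Finset.mem_filter]
      constructor
      · rintro (⟨h1, ⟨h2, h3, -⟩, h4⟩ | ⟨h1, ⟨h2, h3, -⟩, h4⟩) <;> exact ⟨h1, ⟨h2, h3⟩, h4⟩
      · rintro ⟨h1, ⟨h2, h3⟩, h4⟩
        have := h3.m2
        have h5 : m % 4 = 1 ∨ m % 4 = 3 := by omega
        rcases h5 with h5 | h5
        · exact Or.inl ⟨h1, ⟨h2, h3, h5⟩, h4⟩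
        · exact Or.inr ⟨h1, ⟨h2, h3, h5⟩, h4⟩
    · rw [Finset.disjoint_left]
      intro m h1 h2
      rw [Finset.mem_filter] at h1 h2
      have h3 := h1.2.1.2.2
      have h4 := h2.2.1.2.2
      omega
  refine key.congr fun X => ?_
  have e2 := hc (fun _ => True) X
  simp only [and_true] at e2
  rw [hc R X, e2]

end Pool.Agent.L0h86.E3
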