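import Pool.Agent.L0h74.T3.TR
import Pool.Agent.L0h74.E3.Stm

/-!
# The abstract system with the prime two: statement
-/

set_option autoImplicit false

open scoped Classical

namespace Pool.Agent.L0h86.E3

open Pool.Agent.Y698.SG (ix)
open Pool.Agent.Y703.CQ (nr)
open Pool.Agent.N973.ND (uu)
open Pool.Agent.L0h74.T3.TR (cI)
open Pool.Agent.L0h74.E3 (n2 GdE)

/-- the entries of the system -/
structure En8 (Q P : Finset ℕ) (m : ℕ × Bool → ℕ × Bool → ZMod 2) (n r e : ℕ × Bool → ZMod 2)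
    (ε s : ZMod 2) (a : ℕ → ℕ → ZMod 2) (t : ℕ → ZMod 2) : Prop where
  q : ∀ q ∈ Q, q.Prime ∧ q % 2 = 1 ∧ q % 3 = 2
  p : ∀ p ∈ P, p.Prime ∧ p % 3 = 1
  ff : ∀ p ∈ P, ∀ k ∈ P, p ≠ k → m (p, false) (k, false) = a p k
  tt : ∀ p ∈ P, ∀ k ∈ P, p ≠ k → m (p, true) (k, true) = a p k
  tf : ∀ p ∈ P, ∀ k ∈ P, p ≠ k → m (p, true) (k, false) = a p k + nr k p
  ft : ∀ p ∈ P, ∀ k ∈ P, p ≠ k → m (p, false) (k, true) = a p k + nr k p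
  sf : ∀ p ∈ P, m (p, true) (p, false) = t p + uu p + t p * uu p
  st : ∀ p ∈ P, m (p, false) (p, true) = t p + uu p + t p * uu p
  pq : ∀ p ∈ P, ∀ q ∈ Q, ∀ b, m (p, b) (q, false) = nr q p
  qp : ∀ p ∈ P, ∀ q ∈ Q, ∀ b, m (q, false) (p, b) = nr p q + uu p
  qq : ∀ q ∈ Q, ∀ q' ∈ Q, q ≠ q' → m (q, false) (q', false) = 0
  nq : ∀ q ∈ Q, n (q, false) = 0
  rq : ∀ q ∈ Q, r (q, false) = 1 + uu q
  np : ∀ p ∈ P, ∀ b, n (p, b) = uu p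
  rf : ∀ p ∈ P, r (p, false) = t p + uu p
  rt : ∀ p ∈ P, r (p, true) = t p
  eq : ∀ q ∈ Q, e (q, false) = 0
  ep : ∀ p ∈ P, ∀ b, e (p, b) = n2 p + uu p
  u : ∑ l ∈ Q ∪ P, uu l = 1 + s
  c : ε = (Q.card : ZMod 2)

/-- the translation; `s = 1` if the product of the primes is `1` modulo four -/
def S_TR8 : Prop := ∀ (Q P : Finset ℕ) (m : ℕ × Bool → ℕ × Bool → ZMod 2)
  (n r e : ℕ × Bool → ZMod 2) (ε s : ZMod 2) (a : ℕ → ℕ → ZMod 2) (t : ℕ → ZMod 2),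
  En8 Q P m n r e ε s a t →
  ((∀ (x : ℕ × Bool → ZMod 2) (y : ZMod 2), (∀ j ∈ ix Q P, ∑ i ∈ (ix Q P).erase j, m i j * x i +
      (∑ i ∈ (ix Q P).erase j, m i j + e j + (1 + ε) * n j + r j) * x j +
      n j * x (cI Q j) + e j * y = 0) →
    ∑ i ∈ ix Q P, r i * x i + s * y = 0 → (∀ i ∈ ix Q P, x i = 0) ∧ y = 0) ↔
  GdE ⟨if s = 1 then 0 else 1, fun p k => a k p + uu p * uu k + uu p * t k, t⟩ (Q ∪ P))

end Pool.Agent.L0h86.E3
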