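import Pool.Agent.L0h86.F3.Fin
import Pool.Agent.L0h86.E3.En8
import Pool.Agent.L0h23.FC.Td
import Pool.Agent.L0h4.T5.MatC

/-!
# The translation of the criterion for the class `y² = x³ - 8 m³`
-/

set_option autoImplicit false
set_option linter.unusedSectionVars false

open scoped Classical
open scoped NumberTheorySymbols

namespace Pool.Agent.L0h86.E3

open Pool.Agent.W192.HK Pool.Agent.Y696 Pool.Agent.Y715.T.Lat
open Pool.Agent.L0h86.F3
open Pool.Agent.L0h86.F5 (e2 tm Cr8 Sys8)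
open Pool.Agent.L0h86.F1 (M1 M2)
open Pool.Agent.Y698.SG (ix lg lg_one lg_neg_one lg_mul mem_ix)
open Pool.Agent.N973.ND (uu)
open Pool.Agent.L0h23.FDE (eD)
open Pool.Agent.L0h23.FR (j2 jneg jsq)
open Pool.Agent.L0h74.E3 (n2 GdE)
open Pool.Agent.L0h86.T3 (m_ff m_tt m_tf m_ft m_self m_self' m_pq m_qp m_qq t_q r_q t_p r_f r_t
  sy_int sy_q pf_t' pf_f')
open Pool.Agent.L0h80.F3 (pf_Q disj sy_cj)

section
variable {Q P : Finset ℕ} {ϖ : ℕ → eis}

lemma e2_q (h : Dt Q P ϖ) {q : ℕ} (hq : q ∈ Q) : e2 (pf Q ϖ) (q, false) = 0 := by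
  unfold e2
  have h1 : (-2 : eis) * cj (-2) = ((4 : ℕ) : eis) := by
    have h2 : cj (-2 : eis) = cjh (-2) := rfl
    rw [h2, map_neg, map_ofNat]
    norm_num
  have ho := (h.q q hq).odd
  rw [pf_Q hq, sy_q (h.q q hq) h1]
  have h2 : J(((4 : ℕ) : ℤ) | q) = 1 := by
    have : ((4 : ℕ) : ℤ) = 2 ^ 2 := by norm_num
    rw [this]
    apply jsq
    have h3 : Nat.Coprime 2 q := (Nat.coprime_primes Nat.prime_two (h.q q hq).pr).2 (by omega)
    exact_mod_cast (Nat.isCoprime_iff_coprime.2 h3)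
  rw [h2, Int.cast_one, lg_one]

lemma lg_m2 {p : ℕ} (hp : p % 2 = 1) : lg ((J(-2 | p) : ℤ) : ℂ) = n2 p + uu p := by
  have h1 : (-2 : ℤ) = -1 * 2 := by norm_num
  rw [h1, jacobiSym.mul_left, jneg hp, j2 hp]
  unfold n2 uu
  have h8 : p % 8 = 1 ∨ p % 8 = 3 ∨ p % 8 = 5 ∨ p % 8 = 7 := by omega
  rcases h8 with h8 | h8 | h8 | h8
  · rw [if_pos (by omega), if_pos (by omega), if_neg (by omega), if_neg (by omega), one_mul,
      Int.cast_one, lg_one, add_zero]
  · rw [if_neg (by omega), if_neg (by omega), if_pos (by omega), if_pos (by omega)]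
    norm_num
    rw [lg_one]
    decide
  · rw [if_pos (by omega), if_neg (by omega), if_pos (by omega), if_neg (by omega)]
    norm_num
    rw [lg_neg_one]
  · rw [if_neg (by omega), if_pos (by omega), if_neg (by omega), if_pos (by omega)]
    norm_num
    rw [lg_neg_one]

lemma e2_p (h : Dt Q P ϖ) {p : ℕ} (hp : p ∈ P) (b : Bool) :
    e2 (pf Q ϖ) (p, b) = n2 p + uu p := by
  have ho : p % 2 = 1 := by
    rcases (h.p p hp).pr.eq_two_or_odd with h2 | h2
    · have := (h.p p hp).m3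
      omega
    · exact h2
  have key : sy (ϖ p) (-2) = ((J(-2 | p) : ℤ) : ℂ) := by
    have h1 := sy_int (h.p p hp).pr (h.nm p hp) (-2)
    rw [← h1]
    congr 1
    push_cast
    rfl
  have key2 : sy (cj (ϖ p)) (-2) = sy (ϖ p) (-2) := by
    rw [← sy_cj (ϖ p) (-2)]
    congr 1
    have : cj (-2 : eis) = cjh (-2) := rfl
    rw [this, map_neg, map_ofNat]
  unfold e2
  cases b
  · rw [pf_f' h hp, key, lg_m2 ho]
  · rw [pf_t' h hp, key2, key, lg_m2 ho]

/-- the sign and the number of the inert primes -/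
lemma eD_card (h : Dt Q P ϖ) {m : ℕ} (hm : m = ∏ q ∈ Q ∪ P, q) : eD m = (Q.card : ZMod 2) := by
  have h1 := prod_Q fun l hl => (h.q l hl).m3
  have h2 := prod_P fun l hl => (h.p l hl).m3
  have h3 : m % 3 = (∏ l ∈ Q, l) % 3 := by
    conv_lhs => rw [hm]
    rw [Finset.prod_union (disj h.q h.p), Nat.mul_mod, h2, mul_one, Nat.mod_mod]
  unfold eD
  rcases h1 with h1 | h1
  · rw [if_pos (by omega), h1.2]
  · rw [if_neg (by omega), h1.2]

lemma uu_tm (h : Dt Q P ϖ) {m : ℕ} (hm : m = ∏ q ∈ Q ∪ P, q) : ∑ l ∈ Q ∪ P, uu l = 1 + tm m := by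
  have hodd : ∀ l ∈ Q ∪ P, l % 2 = 1 := by
    intro l hl
    rcases Finset.mem_union.1 hl with h1 | h1
    · exact (h.q l h1).odd
    · rcases (h.p l h1).pr.eq_two_or_odd with h2 | h2
      · have := (h.p l h1).m3
        omega
      · exact h2
  have e : (1 : ZMod 2) + 1 = 0 := by decide
  unfold tm
  rcases sum_uu hodd with h5 | h5 <;> rw [← hm] at h5
  · rw [h5.2, if_pos h5.1, e]
  · rw [h5.2, if_neg (by omega), add_zero]

/-- **the translation of the criterion** -/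
theorem tr_C (hT : S_TR8) (h : Dt Q P ϖ) {m : ℕ} (hm : m = ∏ q ∈ Q ∪ P, q) :
    Cr8 Q P ϖ m ↔ GdE ⟨if m % 4 = 1 then 0 else 1, fun p k => lg (sy (ϖ p) (ϖ k)) + uu p * uu k +
      uu p * (bt (ϖ k)).re, fun p => (bt (ϖ p)).re⟩ (Q ∪ P) := by
  rw [Pool.Agent.L0h23.FCE.cr8_sys Pool.Agent.L0h80.F3.t_GEN Pool.Agent.L0h23.FR.t_REC
    Pool.Agent.L0h61.T5.t_LINC h hm]
  have key := hT Q P (mm (pf Q ϖ)) (fun i => F4.tr (bt (pf Q ϖ i)))
    (fun i => F4.tr (F4.w * bt (pf Q ϖ i))) (e2 (pf Q ϖ)) (eD m) (tm m)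
    (fun p k => lg (sy (ϖ k) (ϖ p))) (fun p => (bt (ϖ p)).re)
    ⟨fun q hq => ⟨(h.q q hq).pr, (h.q q hq).odd, (h.q q hq).m3⟩,
    fun p hp => ⟨(h.p p hp).pr, (h.p p hp).m3⟩, fun p hp k hk _ => m_ff h hp hk,
    fun p hp k hk _ => m_tt h hp hk, fun p hp k hk hne => m_tf h hp hk hne,
    fun p hp k hk hne => m_ft h hp hk hne, fun p hp => m_self h hp, fun p hp => m_self' h hp,
    fun p hp q hq b => m_pq h hp hq b, fun p hp q hq b => m_qp h hp hq b,
    fun q hq q' hq' hne => m_qq h hq hq' hne, fun q hq => t_q h hq, fun q hq => r_q h hq,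
    fun p hp b => t_p h hp b, fun p hp => r_f h hp, fun p hp => r_t h hp,
    fun q hq => e2_q h hq, fun p hp b => e2_p h hp b, uu_tm h hm, eD_card h hm⟩
  have e : (if tm m = 1 then 0 else 1 : ℕ) = if m % 4 = 1 then 0 else 1 := by
    unfold tm
    by_cases h4 : m % 4 = 1
    · rw [if_pos h4, if_pos rfl, if_pos h4]
    · rw [if_neg h4, if_neg (by decide), if_neg h4]
  rw [e] at key
  exact key

end

end Pool.Agent.L0h86.E3
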